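import Pool.Agent.Lib.MP_54f242_pr.Prob

section

/-! Parseval identity on a finite grid of the torus, and the large sieve type bound with the
supremum over small cubes. -/

set_option autoImplicit false
set_option linter.deprecated false

open MeasureTheory Filter Topology
open scoped ENNReal NNReal

namespace Pool.Agent.Lib.MP_54f242_pr.Exc

open Pool.Agent.Lib.MP_54f242_pr

variable {d : ℕ}

/-- The corner of the cube with index `Q` of the grid of mesh `2π/N`. -/
noncomputable def corner (N : ℕ) (Q : Fin d → Fin N) : Fin d → ℝ :=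
  fun i => -Real.pi + 2 * Real.pi / N * ((Q i : ℕ) : ℝ)

/-- The cube with index `Q` of the grid of mesh `2π/N`. -/
def cube (N : ℕ) (Q : Fin d → Fin N) : Set (Fin d → ℝ) :=
  {k | ∀ i, corner N Q i ≤ k i ∧ k i ≤ corner N Q i + 2 * Real.pi / N}

/-- `exp(i k·x)` -/
noncomputable def ch (k : Fin d → ℝ) (x : Vtx d) : ℂ :=
  Complex.exp (((∑ i, k i * (x i : ℝ) : ℝ) : ℂ) * Complex.I)

lemma ch_eq_prod (k : Fin d → ℝ) (x : Vtx d) :
    ch k x = ∏ i, Complex.exp (((k i * (x i : ℝ) : ℝ) : ℂ) * Complex.I) := by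
  unfold ch
  rw [← Complex.exp_sum]
  congr 1
  push_cast
  rw [Finset.sum_mul]

lemma ch_mul_conj (k : Fin d → ℝ) (x y : Vtx d) :
    ch k x * (starRingEnd ℂ) (ch k y) =
      ∏ i, Complex.exp (((k i * ((x i - y i : ℤ) : ℝ) : ℝ) : ℂ) * Complex.I) := by
  rw [ch_eq_prod, ch_eq_prod, map_prod, ← Finset.prod_mul_distrib]
  refine Finset.prod_congr rfl fun i _ => ?_
  rw [← Complex.exp_conj, ← Complex.exp_add]
  congr 1
  simp only [map_mul, Complex.conj_ofReal, Complex.conj_I]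
  push_cast
  ring

/-- the geometric sum over the grid in one coordinate -/
lemma sum_grid_zero (N : ℕ) (hN : 0 < N) (z : ℤ) (hz : ¬ (N : ℤ) ∣ z) :
    ∑ q : Fin N, Complex.exp ((((-Real.pi + 2 * Real.pi / N * ((q : ℕ) : ℝ)) * (z : ℝ) : ℝ) : ℂ)
      * Complex.I) = 0 := by
  have hN' : (N : ℂ) ≠ 0 := by exact_mod_cast hN.ne'
  set ζ : ℂ := Complex.exp (2 * Real.pi * Complex.I * (z / N)) with hζ
  have h1 : ∀ q : Fin N,
      Complex.exp ((((-Real.pi + 2 * Real.pi / N * ((q : ℕ) : ℝ)) * (z : ℝ) : ℝ) : ℂ)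
        * Complex.I) = Complex.exp (-(Real.pi * z) * Complex.I) * ζ ^ (q : ℕ) := by
    intro q
    rw [hζ, ← Complex.exp_nat_mul, ← Complex.exp_add]
    congr 1
    push_cast
    field_simp
  rw [Finset.sum_congr rfl fun q _ => h1 q, ← Finset.mul_sum,
    Fin.sum_univ_eq_sum_range (fun q => ζ ^ q) N]
  have h2 : ζ ≠ 1 := by
    rw [hζ, Ne, Complex.exp_eq_one_iff]
    rintro ⟨n, hn⟩
    apply hz
    have h3 : (z : ℂ) / N = n := by
      have h4 : (2 * (Real.pi : ℂ) * Complex.I) ≠ 0 := Complex.two_pi_I_ne_zero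
      have h5 : (2 * (Real.pi : ℂ) * Complex.I) * ((z : ℂ) / N) =
          (2 * (Real.pi : ℂ) * Complex.I) * n := by
        rw [hn]; ring
      exact mul_left_cancel₀ h4 h5
    rw [div_eq_iff hN'] at h3
    refine ⟨n, ?_⟩
    have h6 : (z : ℂ) = ((N * n : ℤ) : ℂ) := by rw [h3]; push_cast; ring
    exact_mod_cast h6
  have h3 : ζ ^ N = 1 := by
    rw [hζ, ← Complex.exp_nat_mul, Complex.exp_eq_one_iff]
    refine ⟨z, ?_⟩
    field_simp
  rw [geom_sum_eq h2, h3, sub_self, zero_div, mul_zero]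

/-- Parseval identity on the grid. -/
lemma parseval_grid (N : ℕ) (hN : 0 < N) (A : Finset (Vtx d)) (a : Vtx d → ℂ)
    (hA : ∀ x ∈ A, ∀ y ∈ A, (∀ i, (N : ℤ) ∣ x i - y i) → x = y) :
    ∑ Q : Fin d → Fin N, ‖∑ x ∈ A, a x * ch (corner N Q) x‖ ^ 2 =
      (N : ℝ) ^ d * ∑ x ∈ A, ‖a x‖ ^ 2 := by
  classical
  have key : ∀ x ∈ A, ∀ y ∈ A, ∑ Q : Fin d → Fin N, ch (corner N Q) x *
      (starRingEnd ℂ) (ch (corner N Q) y) = if x = y then (N : ℂ) ^ d else 0 := by
    intro x hx y hy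
    have h1 : ∑ Q : Fin d → Fin N, ch (corner N Q) x * (starRingEnd ℂ) (ch (corner N Q) y) =
        ∏ i : Fin d, ∑ q : Fin N, Complex.exp ((((-Real.pi + 2 * Real.pi / N * ((q : ℕ) : ℝ)) *
          ((x i - y i : ℤ) : ℝ) : ℝ) : ℂ) * Complex.I) := by
      rw [Finset.prod_univ_sum]
      rw [Fintype.piFinset_univ]
      refine Finset.sum_congr rfl fun Q _ => ?_
      rw [ch_mul_conj]
      rfl
    rw [h1]
    split_ifs with hxy
    · subst hxy
      simp
    · have h2 : ∃ i, ¬ (N : ℤ) ∣ x i - y i := by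
        by_contra hcon
        push Not at hcon
        exact hxy (hA x hx y hy hcon)
      obtain ⟨i, hi⟩ := h2
      exact Finset.prod_eq_zero (Finset.mem_univ i) (sum_grid_zero N hN _ hi)
  have h2 : ((∑ Q : Fin d → Fin N, ‖∑ x ∈ A, a x * ch (corner N Q) x‖ ^ 2 : ℝ) : ℂ) =
      (((N : ℝ) ^ d * ∑ x ∈ A, ‖a x‖ ^ 2 : ℝ) : ℂ) := by
    push_cast
    have h3 : ∀ Q : Fin d → Fin N, ((‖∑ x ∈ A, a x * ch (corner N Q) x‖ : ℂ)) ^ 2 =
        ∑ x ∈ A, ∑ y ∈ A, (a x * (starRingEnd ℂ) (a y)) *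
          (ch (corner N Q) x * (starRingEnd ℂ) (ch (corner N Q) y)) := by
      intro Q
      rw [← Complex.mul_conj', map_sum, Finset.sum_mul_sum]
      refine Finset.sum_congr rfl fun x _ => Finset.sum_congr rfl fun y _ => ?_
      rw [map_mul]
      ring
    rw [Finset.sum_congr rfl fun Q _ => h3 Q, Finset.sum_comm]
    have h4 : ∀ x ∈ A, ∑ Q : Fin d → Fin N, ∑ y ∈ A, (a x * (starRingEnd ℂ) (a y)) *
          (ch (corner N Q) x * (starRingEnd ℂ) (ch (corner N Q) y)) =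
        (N : ℂ) ^ d * (‖a x‖ : ℂ) ^ 2 := by
      intro x hx
      rw [Finset.sum_comm]
      have h5 : ∀ y ∈ A, ∑ Q : Fin d → Fin N, (a x * (starRingEnd ℂ) (a y)) *
          (ch (corner N Q) x * (starRingEnd ℂ) (ch (corner N Q) y)) =
          if x = y then (a x * (starRingEnd ℂ) (a y)) * (N : ℂ) ^ d else 0 := by
        intro y hy
        rw [← Finset.mul_sum, key x hx y hy, mul_ite, mul_zero]
      rw [Finset.sum_congr rfl h5, Finset.sum_ite_eq, if_pos hx, Complex.mul_conj']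
      ring
    rw [Finset.sum_congr rfl h4, ← Finset.mul_sum]
  exact_mod_cast h2

/-- partial sums of the exponential series of `exp(i u)` -/
noncomputable def pexp (K : ℕ) (u : ℝ) : ℂ :=
  ∑ n ∈ Finset.range K, ((u : ℂ) * Complex.I) ^ n / (n.factorial : ℂ)

lemma tendsto_pexp (u : ℝ) :
    Tendsto (fun K => pexp K u) atTop (𝓝 (Complex.exp ((u : ℂ) * Complex.I))) := by
  unfold pexp
  have h := NormedSpace.expSeries_div_hasSum_exp (𝔸 := ℂ) ((u : ℂ) * Complex.I)
  rw [← Complex.exp_eq_exp_ℂ] at h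
  exact h.tendsto_sum_nat

/-- the weighted coefficient sums -/
noncomputable def tco (N : ℕ) (M : ℝ) (A : Finset (Vtx d)) (α : Fin d → ℕ) (Q : Fin d → Fin N) :
    ℂ :=
  ∑ x ∈ A, ((∏ i, ((x i : ℝ) / M) ^ α i : ℝ) : ℂ) * ch (corner N Q) x

/-- weights -/
noncomputable def wgt (b : ℝ) (α : Fin d → ℕ) : ℝ := ∏ i, b ^ α i / ((α i).factorial : ℝ)

lemma wgt_nonneg {b : ℝ} (hb : 0 ≤ b) (α : Fin d → ℕ) : 0 ≤ wgt b α := by
  unfold wgt
  exact Finset.prod_nonneg fun i _ => by positivity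

lemma sum_wgt_le {b : ℝ} (hb : 0 ≤ b) (K : ℕ) :
    ∑ α ∈ Fintype.piFinset (fun _ : Fin d => Finset.range K), wgt b α ≤ Real.exp b ^ d := by
  unfold wgt
  have h := Finset.prod_univ_sum (fun _ : Fin d => Finset.range K)
    (fun (_ : Fin d) (n : ℕ) => b ^ n / (n.factorial : ℝ))
  rw [← h]
  have h2 : ∀ i : Fin d, ∑ n ∈ Finset.range K, b ^ n / (n.factorial : ℝ) ≤ Real.exp b :=
    fun _ => Real.sum_le_exp_of_nonneg hb K
  calc ∏ _i : Fin d, ∑ n ∈ Finset.range K, b ^ n / (n.factorial : ℝ)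
      ≤ ∏ _i : Fin d, Real.exp b :=
        Finset.prod_le_prod (fun i _ => Finset.sum_nonneg fun n _ => by positivity)
          (fun i _ => h2 i)
    _ = Real.exp b ^ d := by simp

/-- the majorant with truncation `K` -/
noncomputable def gmaj (N : ℕ) (M b : ℝ) (A : Finset (Vtx d)) (K : ℕ) (Q : Fin d → Fin N) : ℝ :=
  Real.exp b ^ d * ∑ α ∈ Fintype.piFinset (fun _ : Fin d => Finset.range K),
    wgt b α * ‖tco N M A α Q‖ ^ 2

lemma gmaj_mono (N : ℕ) (M : ℝ) {b : ℝ} (hb : 0 ≤ b) (A : Finset (Vtx d)) (Q : Fin d → Fin N) :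
    Monotone (fun K => gmaj N M b A K Q) := by
  intro K K' h
  unfold gmaj
  refine mul_le_mul_of_nonneg_left ?_ (by positivity)
  refine Finset.sum_le_sum_of_subset_of_nonneg ?_ (fun α _ _ => mul_nonneg (wgt_nonneg hb α)
    (by positivity))
  exact Fintype.piFinset_subset _ _ fun _ => Finset.range_mono h

lemma gmaj_nonneg (N : ℕ) (M : ℝ) {b : ℝ} (hb : 0 ≤ b) (A : Finset (Vtx d)) (K : ℕ)
    (Q : Fin d → Fin N) : 0 ≤ gmaj N M b A K Q := by
  unfold gmaj
  exact mul_nonneg (by positivity) (Finset.sum_nonneg fun α _ => mul_nonneg (wgt_nonneg hb α)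
    (by positivity))

lemma sum_gmaj_le (N : ℕ) (hN : 0 < N) (M : ℝ) (hM : 0 < M) {b : ℝ} (hb : 0 ≤ b)
    (A : Finset (Vtx d)) (hAM : ∀ x ∈ A, ∀ i, |(x i : ℝ)| ≤ M)
    (hA : ∀ x ∈ A, ∀ y ∈ A, (∀ i, (N : ℤ) ∣ x i - y i) → x = y) (K : ℕ) :
    ∑ Q : Fin d → Fin N, gmaj N M b A K Q ≤
      Real.exp b ^ d * Real.exp b ^ d * ((N : ℝ) ^ d * A.card) := by
  unfold gmaj
  rw [← Finset.mul_sum, mul_assoc]
  refine mul_le_mul_of_nonneg_left ?_ (by positivity)
  rw [Finset.sum_comm]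
  have h1 : ∀ α ∈ Fintype.piFinset (fun _ : Fin d => Finset.range K),
      ∑ Q : Fin d → Fin N, wgt b α * ‖tco N M A α Q‖ ^ 2 ≤ wgt b α * ((N : ℝ) ^ d * A.card) := by
    intro α _
    rw [← Finset.mul_sum]
    refine mul_le_mul_of_nonneg_left ?_ (wgt_nonneg hb α)
    unfold tco
    rw [parseval_grid N hN A (fun x => ((∏ i, ((x i : ℝ) / M) ^ α i : ℝ) : ℂ)) hA]
    refine mul_le_mul_of_nonneg_left ?_ (by positivity)
    rw [Finset.card_eq_sum_ones]
    push_cast
    refine Finset.sum_le_sum fun x hx => ?_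
    have h2 : ‖((∏ i, ((x i : ℝ) / M) ^ α i : ℝ) : ℂ)‖ ≤ 1 := by
      rw [Complex.norm_real, Real.norm_eq_abs, Finset.abs_prod]
      refine Finset.prod_le_one (fun i _ => abs_nonneg _) fun i _ => ?_
      rw [abs_pow, abs_div, abs_of_pos hM]
      exact pow_le_one₀ (by positivity) ((div_le_one hM).2 (hAM x hx i))
    have h3 := pow_le_one₀ (norm_nonneg _) h2 (n := 2)
    push_cast at h3 ⊢
    exact h3
  refine (Finset.sum_le_sum h1).trans ?_
  rw [← Finset.sum_mul]
  exact mul_le_mul_of_nonneg_right (sum_wgt_le hb K) (by positivity)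

/-- the truncated exponential sum is bounded by the majorant -/
lemma trunc_le (N : ℕ) (hN : 0 < N) (M : ℝ) (hM : 0 < M) (A : Finset (Vtx d))
    (Q : Fin d → Fin N) (k : Fin d → ℝ) (hk : k ∈ cube N Q) (K : ℕ) :
    ‖∑ x ∈ A, ch (corner N Q) x * ∏ i, pexp K ((k i - corner N Q i) * (x i : ℝ))‖ ^ 2 ≤
      gmaj N M (2 * Real.pi / N * M) A K Q := by
  classical
  set b : ℝ := 2 * Real.pi / N * M with hb
  have hb0 : 0 ≤ b := by positivity
  set S := Fintype.piFinset (fun _ : Fin d => Finset.range K) with hS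
  set c : (Fin d → ℕ) → ℂ := fun α => ∏ i, ((((k i - corner N Q i) * M : ℝ) : ℂ) * Complex.I) ^ α i
    / ((α i).factorial : ℂ) with hc
  have h1 : ∑ x ∈ A, ch (corner N Q) x * ∏ i, pexp K ((k i - corner N Q i) * (x i : ℝ)) =
      ∑ α ∈ S, c α * tco N M A α Q := by
    have h2 : ∀ x : Vtx d, ∏ i, pexp K ((k i - corner N Q i) * (x i : ℝ)) =
        ∑ α ∈ S, c α * ((∏ i, ((x i : ℝ) / M) ^ α i : ℝ) : ℂ) := by
      intro x
      unfold pexp
      rw [Finset.prod_univ_sum]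
      refine Finset.sum_congr rfl fun α _ => ?_
      rw [hc]
      push_cast
      rw [← Finset.prod_mul_distrib]
      refine Finset.prod_congr rfl fun i _ => ?_
      have hM' : (M : ℂ) ≠ 0 := by exact_mod_cast hM.ne'
      rw [div_mul_eq_mul_div, ← mul_pow]
      congr 2
      field_simp
    simp only [h2]
    unfold tco
    simp only [Finset.mul_sum]
    rw [Finset.sum_comm]
    refine Finset.sum_congr rfl fun α _ => Finset.sum_congr rfl fun x _ => ?_
    ring
  rw [h1]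
  have h3 : ∀ α, ‖c α‖ ≤ wgt b α := by
    intro α
    rw [hc]
    unfold wgt
    rw [norm_prod]
    refine Finset.prod_le_prod (fun i _ => norm_nonneg _) fun i _ => ?_
    rw [norm_div, norm_pow, norm_mul, Complex.norm_I, mul_one, Complex.norm_real,
      Complex.norm_natCast, Real.norm_eq_abs]
    have h4 : |(k i - corner N Q i) * M| ≤ b := by
      obtain ⟨h5, h6⟩ := hk i
      rw [abs_mul, abs_of_pos hM, abs_of_nonneg (by linarith), hb]
      exact mul_le_mul_of_nonneg_right (by linarith) hM.le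
    gcongr
  have h4 : ‖∑ α ∈ S, c α * tco N M A α Q‖ ≤ ∑ α ∈ S, wgt b α * ‖tco N M A α Q‖ := by
    refine (norm_sum_le _ _).trans (Finset.sum_le_sum fun α _ => ?_)
    rw [norm_mul]
    exact mul_le_mul_of_nonneg_right (h3 α) (norm_nonneg _)
  have h5 : (∑ α ∈ S, wgt b α * ‖tco N M A α Q‖) ^ 2 ≤
      (∑ α ∈ S, wgt b α) * ∑ α ∈ S, wgt b α * ‖tco N M A α Q‖ ^ 2 := by
    apply Finset.sum_sq_le_sum_mul_sum_of_sq_eq_mul
    · intro α _; exact wgt_nonneg hb0 α
    · intro α _; exact mul_nonneg (wgt_nonneg hb0 α) (by positivity)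
    · intro α _; ring
  calc ‖∑ α ∈ S, c α * tco N M A α Q‖ ^ 2 ≤ (∑ α ∈ S, wgt b α * ‖tco N M A α Q‖) ^ 2 := by
        gcongr
    _ ≤ (∑ α ∈ S, wgt b α) * ∑ α ∈ S, wgt b α * ‖tco N M A α Q‖ ^ 2 := h5
    _ ≤ gmaj N M b A K Q := by
        unfold gmaj
        refine mul_le_mul_of_nonneg_right (sum_wgt_le hb0 K) ?_
        exact Finset.sum_nonneg fun α _ => mul_nonneg (wgt_nonneg hb0 α) (by positivity)

lemma ampl_eq_ch (A : Finset (Vtx d)) (k : Fin d → ℝ) : ampl A k = ‖∑ x ∈ A, ch k x‖ ^ 2 := rfl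

lemma ampl_le_iSup (N : ℕ) (hN : 0 < N) (M : ℝ) (hM : 0 < M) (A : Finset (Vtx d))
    (Q : Fin d → Fin N) (k : Fin d → ℝ) (hk : k ∈ cube N Q) :
    ENNReal.ofReal (ampl A k) ≤ ⨆ K : ℕ,
      ENNReal.ofReal (gmaj N M (2 * Real.pi / N * M) A K Q) := by
  have h1 : Tendsto (fun K => ‖∑ x ∈ A, ch (corner N Q) x *
      ∏ i, pexp K ((k i - corner N Q i) * (x i : ℝ))‖ ^ 2) atTop (𝓝 (ampl A k)) := by
    rw [ampl_eq_ch]
    refine (Tendsto.norm ?_).pow 2
    refine tendsto_finsetSum _ fun x _ => ?_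
    have h2 : ch k x = ch (corner N Q) x *
        ∏ i, Complex.exp ((((k i - corner N Q i) * (x i : ℝ) : ℝ) : ℂ) * Complex.I) := by
      rw [ch_eq_prod, ch_eq_prod, ← Finset.prod_mul_distrib]
      refine Finset.prod_congr rfl fun i _ => ?_
      rw [← Complex.exp_add]
      congr 1
      push_cast
      ring
    rw [h2]
    exact (tendsto_finsetProd _ fun i _ => tendsto_pexp _).const_mul _
  have h2 : Tendsto (fun K => ENNReal.ofReal (‖∑ x ∈ A, ch (corner N Q) x *
      ∏ i, pexp K ((k i - corner N Q i) * (x i : ℝ))‖ ^ 2)) atTop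
      (𝓝 (ENNReal.ofReal (ampl A k))) := (ENNReal.continuous_ofReal.tendsto _).comp h1
  refine le_of_tendsto h2 (Eventually.of_forall fun K => ?_)
  exact (ENNReal.ofReal_le_ofReal (trunc_le N hN M hM A Q k hk K)).trans
    (le_iSup (fun K : ℕ => ENNReal.ofReal (gmaj N M (2 * Real.pi / N * M) A K Q)) K)

/-- **Large sieve with the supremum over the cubes of a grid.** -/
lemma sum_iSup_ampl_le (N : ℕ) (hN : 0 < N) (M : ℝ) (hM : 0 < M) (A : Finset (Vtx d))
    (hAM : ∀ x ∈ A, ∀ i, |(x i : ℝ)| ≤ M)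
    (hA : ∀ x ∈ A, ∀ y ∈ A, (∀ i, (N : ℤ) ∣ x i - y i) → x = y) :
    ∑ Q : Fin d → Fin N, ⨆ k ∈ cube N Q, ENNReal.ofReal (ampl A k) ≤
      ENNReal.ofReal (Real.exp (2 * Real.pi / N * M) ^ d * Real.exp (2 * Real.pi / N * M) ^ d *
        (N : ℝ) ^ d) * A.card := by
  set b : ℝ := 2 * Real.pi / N * M with hb
  have hb0 : 0 ≤ b := by positivity
  have h1 : ∑ Q : Fin d → Fin N, ⨆ k ∈ cube N Q, ENNReal.ofReal (ampl A k) ≤
      ∑ Q : Fin d → Fin N, ⨆ K : ℕ, ENNReal.ofReal (gmaj N M b A K Q) :=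
    Finset.sum_le_sum fun Q _ => iSup₂_le fun k hk => ampl_le_iSup N hN M hM A Q k hk
  refine h1.trans ?_
  rw [ENNReal.finsetSum_iSup_of_monotone
    (fun Q => fun K K' h => ENNReal.ofReal_le_ofReal (gmaj_mono N M hb0 A Q h))]
  refine iSup_le fun K => ?_
  rw [← ENNReal.ofReal_sum_of_nonneg (fun Q _ => gmaj_nonneg N M hb0 A K Q),
    ← ENNReal.ofReal_natCast, ← ENNReal.ofReal_mul (by positivity)]
  apply ENNReal.ofReal_le_ofReal
  refine (sum_gmaj_le N hN M hM hb0 A hAM hA K).trans (le_of_eq ?_)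
  ring

end Pool.Agent.Lib.MP_54f242_pr.Exc
end

section

/-! The maximal inequality for chains of sets at scale `2^r`, on the grid. -/

set_option autoImplicit false
set_option linter.deprecated false

open MeasureTheory Filter Topology
open scoped ENNReal NNReal

namespace Pool.Agent.Lib.MP_54f242_pr.Exc

open Pool.Agent.Lib.MP_54f242_pr

variable {d : ℕ}

/-- `1 + diam C` is in `[2^r, 2^(r+1))`. -/
def scl (r : ℕ) (C : Set (Vtx d)) : Prop :=
  (2 : ℝ≥0∞) ^ r ≤ 1 + Metric.ediam C ∧ 1 + Metric.ediam C < 2 ^ (r + 1)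

/-- the box of radius `2^(r+1)` -/
noncomputable def box (d r : ℕ) : Finset (Vtx d) :=
  Fintype.piFinset fun _ => Finset.Icc (-(2 ^ (r + 1) : ℤ)) (2 ^ (r + 1))

lemma mem_box {r : ℕ} {x : Vtx d} : x ∈ box d r ↔ ∀ i, |x i| ≤ 2 ^ (r + 1) := by
  unfold box
  rw [Fintype.mem_piFinset]
  simp only [Finset.mem_Icc, abs_le]

lemma card_box_le (d r : ℕ) : (box d r).card ≤ 2 ^ ((r + 3) * d) := by
  unfold box
  rw [Fintype.card_piFinset]
  simp only [Int.card_Icc, Finset.prod_const, Finset.card_univ, Fintype.card_fin]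
  rw [pow_mul]
  refine Nat.pow_le_pow_left ?_ d
  have h1 : (2 ^ (r + 1) : ℤ) + 1 - -2 ^ (r + 1) = ((2 ^ (r + 2) + 1 : ℕ) : ℤ) := by
    push_cast; ring
  rw [h1, Int.toNat_natCast]
  have h2 : 1 ≤ 2 ^ (r + 2) := Nat.one_le_two_pow
  have h3 : 2 ^ (r + 3) = 2 * 2 ^ (r + 2) := by ring
  omega

lemma scl.subset_box {r : ℕ} {C : Set (Vtx d)} (h : scl r C) (h0 : (0 : Vtx d) ∈ C) :
    ∀ x ∈ C, x ∈ box d r := by
  intro x hx
  rw [mem_box]
  intro i
  have h1 : edist x 0 ≤ Metric.ediam C := Metric.edist_le_ediam_of_mem hx h0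
  have h2 : edist x 0 < 2 ^ (r + 1) := by
    refine lt_of_le_of_lt h1 (lt_of_le_of_lt ?_ h.2)
    exact le_add_self
  rw [edist_dist] at h2
  have h3 : dist x 0 < 2 ^ (r + 1) := by
    rw [show (2 : ℝ≥0∞) ^ (r + 1) = ENNReal.ofReal (2 ^ (r + 1)) by
      rw [ENNReal.ofReal_pow (by norm_num)]; norm_num] at h2
    exact (ENNReal.ofReal_lt_ofReal_iff (by positivity)).1 h2
  have h4 : dist (x i) ((0 : Vtx d) i) ≤ dist x 0 := dist_le_pi_dist x 0 i
  rw [Int.dist_eq] at h4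
  simp only [Pi.zero_apply, Int.cast_zero, sub_zero] at h4
  have h5 : |(x i : ℝ)| < 2 ^ (r + 1) := lt_of_le_of_lt h4 h3
  have h6 : ((|x i| : ℤ) : ℝ) < ((2 ^ (r + 1) : ℤ) : ℝ) := by
    push_cast; exact h5
  exact (by exact_mod_cast h6 : |x i| < 2 ^ (r + 1)).le

lemma scl.finite {r : ℕ} {C : Set (Vtx d)} (h : scl r C) (h0 : (0 : Vtx d) ∈ C) : C.Finite :=
  (box d r).finite_toSet.subset (fun x hx => h.subset_box h0 x hx)

/-- the number of grid points per coordinate at scale `r` -/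
def Nr (r : ℕ) : ℕ := 2 ^ (r + 3)

lemma Nr_pos (r : ℕ) : 0 < Nr r := by unfold Nr; positivity

/-- the constant `exp(π d) N^d` -/
noncomputable def cst1 (d r : ℕ) : ℝ≥0∞ :=
  ENNReal.ofReal (Real.exp (Real.pi / 2) ^ d * Real.exp (Real.pi / 2) ^ d * (Nr r : ℝ) ^ d)

lemma sum_iSup_ampl_box_le (r : ℕ) (A : Finset (Vtx d)) (hA : A ⊆ box d r) :
    ∑ Q : Fin d → Fin (Nr r), ⨆ k ∈ cube (Nr r) Q, ENNReal.ofReal (ampl A k) ≤
      cst1 d r * A.card := by
  have h := sum_iSup_ampl_le (Nr r) (Nr_pos r) (2 ^ (r + 1)) (by positivity) A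
    (fun x hx i => by
      have := (mem_box.1 (hA hx)) i
      exact_mod_cast this)
    (fun x hx y hy hxy => by
      funext i
      obtain ⟨n, hn⟩ := hxy i
      have h1 := (mem_box.1 (hA hx)) i
      have h2 := (mem_box.1 (hA hy)) i
      rw [abs_le] at h1 h2
      unfold Nr at hn
      push_cast at hn
      have h3 : (2 : ℤ) ^ (r + 3) = 4 * 2 ^ (r + 1) := by ring
      rw [h3] at hn
      have h4 : (0 : ℤ) < 2 ^ (r + 1) := by positivity
      have h5 : n = 0 := by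
        have h6 : n < 1 := by
          by_contra hcon
          push Not at hcon
          nlinarith
        have h7 : -1 < n := by
          by_contra hcon
          push Not at hcon
          nlinarith
        omega
      rw [h5] at hn
      linarith)
  refine h.trans (le_of_eq ?_)
  unfold cst1
  have hb : 2 * Real.pi / (Nr r : ℝ) * 2 ^ (r + 1) = Real.pi / 2 := by
    unfold Nr
    push_cast
    have : (2 : ℝ) ^ (r + 3) = 4 * 2 ^ (r + 1) := by ring
    rw [this]
    field_simp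
    ring
  rw [hb]

/-- supremum over the cube of the squared exponential sum over the part in the box -/
noncomputable def gs (r : ℕ) (A : Finset (Vtx d)) (Q : Fin d → Fin (Nr r)) : ℝ≥0∞ :=
  ⨆ k ∈ cube (Nr r) Q, ENNReal.ofReal (ampl (A ∩ box d r) k)

lemma lintegral_gs_le (r : ℕ) (A : Finset (Vtx d)) :
    ∫⁻ Q, gs r A Q ∂(Measure.count : Measure (Fin d → Fin (Nr r))) ≤ cst1 d r * A.card := by
  rw [lintegral_count, tsum_fintype]
  unfold gs
  refine (sum_iSup_ampl_box_le r (A ∩ box d r) Finset.inter_subset_right).trans ?_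
  gcongr
  exact Finset.inter_subset_left

/-- **Maximal inequality** for a finite chain at scale `r` and size class `m`. -/
lemma sum_sup_cls_le {ι : Type*} (F : Finset ι) (C : ι → Set (Vtx d)) (r m : ℕ)
    (h0 : ∀ i ∈ F, (0 : Vtx d) ∈ C i)
    (hchain : ∀ i ∈ F, ∀ j ∈ F, C i ⊆ C j ∨ C j ⊆ C i) (hcls : ∀ i ∈ F, cls m (C i))
    (hscl : ∀ i ∈ F, scl r (C i)) :
    ∑ Q : Fin d → Fin (Nr r), F.sup (fun i => ⨆ k ∈ cube (Nr r) Q,
      ENNReal.ofReal (spec (C i) k)) ≤ 2 * (m + 1) ^ 2 * cst1 d r := by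
  classical
  let f : {i // i ∈ F} → Finset (Vtx d) := fun i => (hcls i.1 i.2).finite.toFinset
  let Ch : Finset (Finset (Vtx d)) := F.attach.image f
  have hcard : ∀ A ∈ Ch, A.card ≤ 2 ^ m := by
    intro A hA
    obtain ⟨i, -, rfl⟩ := Finset.mem_image.1 hA
    have h1 := (hcls i.1 i.2).2
    rw [sz_of_finite (hcls i.1 i.2).finite] at h1
    exact_mod_cast h1
  have hch : ∀ A ∈ Ch, ∀ A' ∈ Ch, A ⊆ A' ∨ A' ⊆ A := by
    intro A hA A' hA'
    obtain ⟨i, -, rfl⟩ := Finset.mem_image.1 hA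
    obtain ⟨j, -, rfl⟩ := Finset.mem_image.1 hA'
    rcases hchain i.1 i.2 j.1 j.2 with h | h
    · left; exact Set.Finite.toFinset_subset_toFinset.2 h
    · right; exact Set.Finite.toFinset_subset_toFinset.2 h
  have hbox : ∀ A ∈ Ch, A ⊆ box d r := by
    intro A hA
    obtain ⟨i, -, rfl⟩ := Finset.mem_image.1 hA
    intro x hx
    exact (hscl i.1 i.2).subset_box (h0 i.1 i.2) x
      ((Set.Finite.mem_toFinset (hcls i.1 i.2).finite).1 hx)
  obtain ⟨B, hB, hB2⟩ : ∃ B : Finset (Vtx d), B.card ≤ 2 ^ m ∧ ∀ A ∈ Ch, A ⊆ B := by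
    rcases Ch.eq_empty_or_nonempty with h0 | h0
    · exact ⟨∅, by simp, by simp [h0]⟩
    · obtain ⟨B, hB, hmax⟩ := Finset.exists_max_image Ch Finset.card h0
      refine ⟨B, hcard B hB, fun A hA => ?_⟩
      rcases hch A hA B hB with h | h
      · exact h
      · have := Finset.eq_of_subset_of_card_le h (hmax A hA)
        rw [this]
  have key := maximal_abstract (Measure.count : Measure (Fin d → Fin (Nr r)))
    (fun (A : Finset (Vtx d)) Q => gs r A Q) (cst1 d r)
    (fun A => measurable_of_finite _)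
    (fun Q => by
      unfold gs ampl
      simp)
    (fun m hm A B h Q => by
      unfold gs
      refine iSup₂_le fun k hk => ?_
      have h1 := ampl_split m hm (A ∩ box d r) (B ∩ box d r)
        (Finset.inter_subset_inter_right h) k
      have h2 : (B ∩ box d r) \ (A ∩ box d r) = (B \ A) ∩ box d r := by
        ext x
        simp only [Finset.mem_sdiff, Finset.mem_inter]
        tauto
      rw [h2] at h1
      refine h1.trans ?_
      gcongr
      · exact le_iSup₂ (f := fun k _ => ENNReal.ofReal (ampl (A ∩ box d r) k)) k hk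
      · exact le_iSup₂ (f := fun k _ => ENNReal.ofReal (ampl ((B \ A) ∩ box d r) k)) k hk)
    (fun A => lintegral_gs_le r A) m B hB Ch hB2 hch
  rw [lintegral_count, tsum_fintype] at key
  have hpt : ∀ Q : Fin d → Fin (Nr r), F.sup (fun i => ⨆ k ∈ cube (Nr r) Q,
      ENNReal.ofReal (spec (C i) k)) ≤
      ENNReal.ofReal (2 / 2 ^ m) * Ch.sup (fun A => gs r A Q) := by
    intro Q
    refine Finset.sup_le fun i hi => iSup₂_le fun k hk => ?_
    refine (spec_le_ampl (hcls i hi) k).trans ?_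
    gcongr
    have hmem : f ⟨i, hi⟩ ∈ Ch := Finset.mem_image_of_mem _ (Finset.mem_attach _ _)
    refine le_trans ?_ (Finset.le_sup (f := fun A => gs r A Q) hmem)
    unfold gs
    rw [Finset.inter_eq_left.2 (hbox _ hmem)]
    exact le_iSup₂ (f := fun k _ => ENNReal.ofReal (ampl (f ⟨i, hi⟩) k)) k hk
  calc ∑ Q : Fin d → Fin (Nr r), F.sup (fun i => ⨆ k ∈ cube (Nr r) Q,
        ENNReal.ofReal (spec (C i) k))
      ≤ ∑ Q : Fin d → Fin (Nr r), ENNReal.ofReal (2 / 2 ^ m) * Ch.sup (fun A => gs r A Q) :=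
        Finset.sum_le_sum fun Q _ => hpt Q
    _ = ENNReal.ofReal (2 / 2 ^ m) * ∑ Q : Fin d → Fin (Nr r), Ch.sup (fun A => gs r A Q) := by
        rw [Finset.mul_sum]
    _ ≤ ENNReal.ofReal (2 / 2 ^ m) * ((m + 1) ^ 2 * (cst1 d r * B.card)) := by
        gcongr
    _ ≤ ENNReal.ofReal (2 / 2 ^ m) * ((m + 1) ^ 2 * (cst1 d r * (2 ^ m : ℕ))) := by
        gcongr
    _ = 2 * (m + 1) ^ 2 * cst1 d r := by
        have h1 : ENNReal.ofReal (2 / 2 ^ m) * ((2 ^ m : ℕ) : ℝ≥0∞) = 2 := by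
          rw [← ENNReal.ofReal_natCast, ← ENNReal.ofReal_mul (by positivity)]
          push_cast
          rw [div_mul_cancel₀ _ (by positivity)]
          norm_num
        calc ENNReal.ofReal (2 / 2 ^ m) * ((m + 1) ^ 2 * (cst1 d r * (2 ^ m : ℕ)))
            = (ENNReal.ofReal (2 / 2 ^ m) * ((2 ^ m : ℕ) : ℝ≥0∞)) * (m + 1) ^ 2 * cst1 d r := by
              ring
          _ = _ := by rw [h1]

/-- the number of size classes at scale `r` -/
def nc (d r : ℕ) : ℕ := (r + 3) * d + 1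

lemma cls_lt_nc {r m : ℕ} {C : Set (Vtx d)} (h0 : (0 : Vtx d) ∈ C) (h : scl r C)
    (hm : cls m C) : m < nc d r := by
  have hf := h.finite h0
  have h1 := hm.1
  rw [sz_of_finite hf] at h1
  have h2 : hf.toFinset.card ≤ 2 ^ ((r + 3) * d) :=
    (Finset.card_le_card (fun x hx => h.subset_box h0 x (hf.mem_toFinset.1 hx))).trans
      (card_box_le d r)
  have h3 : (2 : ℝ) ^ m / 2 < 2 ^ ((r + 3) * d) := lt_of_lt_of_le h1 (by exact_mod_cast h2)
  unfold nc
  by_contra hcon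
  push Not at hcon
  have h4 : (2 : ℝ) ^ ((r + 3) * d + 1) ≤ 2 ^ m := pow_le_pow_right₀ (by norm_num) hcon
  rw [pow_succ] at h4
  linarith

/-- **Maximal inequality** for a finite chain at scale `r`. -/
lemma sum_sup_scl_le {ι : Type*} (F : Finset ι) (C : ι → Set (Vtx d)) (r : ℕ)
    (h0 : ∀ i ∈ F, (0 : Vtx d) ∈ C i)
    (hchain : ∀ i ∈ F, ∀ j ∈ F, C i ⊆ C j ∨ C j ⊆ C i) :
    ∑ Q : Fin d → Fin (Nr r), F.sup (fun i => open Classical in if scl r (C i) then
      ⨆ k ∈ cube (Nr r) Q, ENNReal.ofReal (spec (C i) k) else 0) ≤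
      2 * (nc d r) ^ 3 * cst1 d r := by
  classical
  have hpt : ∀ Q : Fin d → Fin (Nr r), F.sup (fun i => if scl r (C i) then
      ⨆ k ∈ cube (Nr r) Q, ENNReal.ofReal (spec (C i) k) else 0) ≤
      ∑ m ∈ Finset.range (nc d r), (F.filter fun i => scl r (C i) ∧ cls m (C i)).sup
        (fun i => ⨆ k ∈ cube (Nr r) Q, ENNReal.ofReal (spec (C i) k)) := by
    intro Q
    refine Finset.sup_le fun i hi => ?_
    split_ifs with h
    · obtain ⟨m, hm⟩ := exists_cls (h.finite (h0 i hi)) ⟨0, h0 i hi⟩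
      have hmlt := cls_lt_nc (h0 i hi) h hm
      refine le_trans ?_ (Finset.single_le_sum
        (f := fun m => (F.filter fun i => scl r (C i) ∧ cls m (C i)).sup
          (fun i => ⨆ k ∈ cube (Nr r) Q, ENNReal.ofReal (spec (C i) k)))
        (fun _ _ => zero_le) (Finset.mem_range.2 hmlt))
      exact Finset.le_sup (f := fun i => ⨆ k ∈ cube (Nr r) Q, ENNReal.ofReal (spec (C i) k))
        (Finset.mem_filter.2 ⟨hi, h, hm⟩)
    · exact zero_le
  refine (Finset.sum_le_sum fun Q _ => hpt Q).trans ?_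
  rw [Finset.sum_comm]
  have h1 : ∀ m ∈ Finset.range (nc d r), ∑ Q : Fin d → Fin (Nr r),
      (F.filter fun i => scl r (C i) ∧ cls m (C i)).sup
        (fun i => ⨆ k ∈ cube (Nr r) Q, ENNReal.ofReal (spec (C i) k)) ≤
      2 * (nc d r : ℝ≥0∞) ^ 2 * cst1 d r := by
    intro m hm
    refine (sum_sup_cls_le _ C r m (fun i hi => h0 i (Finset.mem_filter.1 hi).1)
      (fun i hi j hj => hchain i (Finset.mem_filter.1 hi).1 j (Finset.mem_filter.1 hj).1)
      (fun i hi => (Finset.mem_filter.1 hi).2.2) (fun i hi => (Finset.mem_filter.1 hi).2.1)).trans ?_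
    have h2 : ((m : ℝ≥0∞) + 1) ≤ nc d r := by
      have := Finset.mem_range.1 hm
      exact_mod_cast this
    gcongr
  refine (Finset.sum_le_sum h1).trans (le_of_eq ?_)
  rw [Finset.sum_const, Finset.card_range, nsmul_eq_mul]
  ring

end Pool.Agent.Lib.MP_54f242_pr.Exc
end

section

/-! Expectations: the maximal inequality for the two-point function at scale `2^r`. -/

set_option autoImplicit false
set_option linter.deprecated false

open MeasureTheory Filter Topology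
open scoped ENNReal NNReal

namespace Pool.Agent.Lib.MP_54f242_pr.Exc

open Pool.Agent.Lib.MP_54f242_pr

variable {d : ℕ}

/-- `E_p[(1 + diam C)^s]` -/
noncomputable def dmom (d : ℕ) (s : ℝ) (p : ℝ≥0) (hp : p ≤ 1) : ℝ≥0∞ :=
  ∫⁻ ω, (1 + Metric.ediam (cluster ω)) ^ s ∂(law d p hp)

lemma ediam_eq (C : Set (Vtx d)) : Metric.ediam C =
    ⨆ x : Vtx d, ⨆ y : Vtx d, open Classical in if x ∈ C ∧ y ∈ C then edist x y else 0 := by
  classical
  apply le_antisymm
  · refine Metric.ediam_le fun x hx y hy => ?_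
    refine le_trans ?_ (le_iSup₂ (f := fun x y : Vtx d => if x ∈ C ∧ y ∈ C then edist x y else 0)
      x y)
    rw [if_pos ⟨hx, hy⟩]
  · refine iSup₂_le fun x y => ?_
    split_ifs with h
    · exact Metric.edist_le_ediam_of_mem h.1 h.2
    · exact zero_le

lemma measurable_ediam : Measurable (fun ω : Bond d → Bool => Metric.ediam (cluster ω)) := by
  classical
  simp_rw [ediam_eq]
  refine Measurable.iSup fun x => Measurable.iSup fun y => ?_
  refine Measurable.ite ?_ measurable_const measurable_const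
  exact (Transport.measurableSet_mem_cluster x).inter (Transport.measurableSet_mem_cluster y)

/-- functions of the cluster that vanish on infinite sets are measurable -/
lemma measurable_of_cluster (h : Set (Vtx d) → ℝ≥0∞)
    (h0 : ∀ C : Set (Vtx d), (0 : Vtx d) ∈ C → ¬ C.Finite → h C = 0) :
    Measurable (fun ω : Bond d → Bool => h (cluster ω)) := by
  let _ : MeasurableSpace (Option (Finset (Vtx d))) := ⊤
  let G' : Option (Finset (Vtx d)) → ℝ≥0∞ := fun z =>
    match z with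
    | none => 0
    | some A => h A
  have heq : (fun ω : Bond d → Bool => h (cluster ω)) = G' ∘ Transport.F := by
    funext ω
    show h (cluster ω) = G' (Transport.F ω)
    by_cases hf : (cluster ω).Finite
    · have hc : cluster ω = (hf.toFinset : Set (Vtx d)) := (Set.Finite.coe_toFinset hf).symm
      rw [Transport.F_of_eq hc]
      show h (cluster ω) = h hf.toFinset
      rw [← hc]
    · rw [Transport.F_eq_none.2 hf]
      exact h0 _ (SimpleGraph.Reachable.refl _) hf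
  rw [heq]
  exact (measurable_from_top (f := G')).comp Transport.measurable_F

lemma measurable_of_clu (i : Par d) (h : Set (Vtx d) → ℝ≥0∞)
    (h0 : ∀ C : Set (Vtx d), (0 : Vtx d) ∈ C → ¬ C.Finite → h C = 0) :
    Measurable (fun U : Bond d → ℝ => h (clu i U)) :=
  (measurable_of_cluster h h0).comp (measurable_conf (i.1 : ℝ))

/-- `E_p[(1 + diam C)^s]` in the coupling -/
noncomputable def dm (s : ℝ) (i : Par d) : ℝ≥0∞ := dmom d s i.1 i.le_one

lemma dm_eq (s : ℝ) (i : Par d) :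
    dm s i = ∫⁻ U, (1 + Metric.ediam (clu i U)) ^ s ∂(labelLaw d) := by
  unfold dm dmom
  rw [← map_conf, lintegral_map]
  · rfl
  · exact (measurable_const.add measurable_ediam).pow_const s
  · exact measurable_conf _

lemma measurable_ediam_clu (i : Par d) :
    Measurable (fun U : Bond d → ℝ => Metric.ediam (clu i U)) :=
  measurable_ediam.comp (measurable_conf (i.1 : ℝ))

instance : IsProbabilityMeasure (labelLaw d) := by
  unfold labelLaw
  have : IsProbabilityMeasure ((volume : Measure ℝ).restrict (Set.Icc 0 1)) :=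
    ⟨by simp⟩
  infer_instance

lemma one_le_dm {s : ℝ} (hs : 0 ≤ s) (i : Par d) : 1 ≤ dm s i := by
  rw [dm_eq]
  calc (1 : ℝ≥0∞) = ∫⁻ _U : Bond d → ℝ, 1 ∂(labelLaw d) := by simp
    _ ≤ _ := lintegral_mono fun U => by
        calc (1 : ℝ≥0∞) = 1 ^ s := by simp
          _ ≤ (1 + Metric.ediam (clu i U)) ^ s := ENNReal.rpow_le_rpow le_self_add hs

lemma markov_dm {s : ℝ} (hs : 0 ≤ s) (i : Par d) (r : ℕ) :
    labelLaw d {U | (2 : ℝ≥0∞) ^ r ≤ 1 + Metric.ediam (clu i U)} ≤ dm s i / (2 ^ r) ^ s := by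
  rw [dm_eq]
  refine le_trans (measure_mono ?_) (meas_ge_le_lintegral_div
    ((measurable_const.add (measurable_ediam_clu i)).pow_const s).aemeasurable
    (ε := ((2 : ℝ≥0∞) ^ r) ^ s) ?_ ?_)
  · intro U hU
    exact ENNReal.rpow_le_rpow hU hs
  · exact (ENNReal.rpow_pos (by positivity) (by finiteness)).ne'
  · exact ENNReal.rpow_ne_top_of_nonneg hs (by finiteness)

open Classical in
/-- the term of scale `r` -/
noncomputable def term (r : ℕ) (Q : Fin d → Fin (Nr r)) (C : Set (Vtx d)) : ℝ≥0∞ :=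
  if scl r C then ⨆ k ∈ cube (Nr r) Q, ENNReal.ofReal (spec C k) else 0

lemma measurable_term (r : ℕ) (Q : Fin d → Fin (Nr r)) (i : Par d) :
    Measurable (fun U : Bond d → ℝ => term r Q (clu i U)) := by
  apply measurable_of_clu
  intro C h0 hC
  unfold term
  rw [if_neg]
  intro h
  exact hC (h.finite h0)

/-- the expected maximum of the terms of scale `r` over a finite set of parameters -/
noncomputable def sf (F : Finset (Par d)) (r : ℕ) (Q : Fin d → Fin (Nr r)) : ℝ≥0∞ :=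
  ∫⁻ U, F.sup (fun i => term r Q (clu i U)) ∂(labelLaw d)

lemma measurable_sup_term (F : Finset (Par d)) (r : ℕ) (Q : Fin d → Fin (Nr r)) :
    Measurable (fun U : Bond d → ℝ => F.sup (fun i => term r Q (clu i U))) := by
  exact measurable_fsup F (fun i U => term r Q (clu i U)) (fun i _ => measurable_term r Q i)

lemma term_le (r : ℕ) (Q : Fin d → Fin (Nr r)) {C : Set (Vtx d)} (h0 : (0 : Vtx d) ∈ C) :
    term r Q C ≤ 2 ^ ((r + 3) * d) := by
  unfold term
  split_ifs with h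
  · have hf := h.finite h0
    refine iSup₂_le fun k _ => ?_
    have h1 : spec C k ≤ hf.toFinset.card := by
      have := Transport.spec_le_card hf.toFinset k
      rwa [Set.Finite.coe_toFinset] at this
    have h2 : hf.toFinset.card ≤ 2 ^ ((r + 3) * d) :=
      (Finset.card_le_card (fun x hx => h.subset_box h0 x (hf.mem_toFinset.1 hx))).trans
        (card_box_le d r)
    calc ENNReal.ofReal (spec C k) ≤ ENNReal.ofReal (hf.toFinset.card : ℝ) :=
          ENNReal.ofReal_le_ofReal h1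
      _ = (hf.toFinset.card : ℝ≥0∞) := ENNReal.ofReal_natCast _
      _ ≤ ((2 ^ ((r + 3) * d) : ℕ) : ℝ≥0∞) := by exact_mod_cast h2
      _ = 2 ^ ((r + 3) * d) := by push_cast; rfl
  · exact zero_le

lemma sf_le_trivial (F : Finset (Par d)) (r : ℕ) (Q : Fin d → Fin (Nr r)) :
    sf F r Q ≤ 2 ^ ((r + 3) * d) := by
  unfold sf
  calc ∫⁻ U, F.sup (fun i => term r Q (clu i U)) ∂(labelLaw d)
      ≤ ∫⁻ _U : Bond d → ℝ, 2 ^ ((r + 3) * d) ∂(labelLaw d) :=
        lintegral_mono fun U => Finset.sup_le fun i _ => term_le r Q (zero_mem_clu i U)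
    _ = 2 ^ ((r + 3) * d) := by simp

lemma sf_mono {F F' : Finset (Par d)} (h : F ⊆ F') (r : ℕ) (Q : Fin d → Fin (Nr r)) :
    sf F r Q ≤ sf F' r Q := by
  unfold sf
  exact lintegral_mono fun U => Finset.sup_mono h

/-- the factor of the maximal inequality -/
noncomputable def fac (d r : ℕ) : ℝ≥0∞ := 2 * (nc d r) ^ 3 * cst1 d r

lemma sum_sf_le {s : ℝ} (hs : 0 ≤ s) (F : Finset (Par d)) (g : ℝ≥0∞) (hF : ∀ i ∈ F, dm s i ≤ g)
    (r : ℕ) : ∑ Q : Fin d → Fin (Nr r), sf F r Q ≤ fac d r * (g / (2 ^ r) ^ s) := by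
  classical
  rcases F.eq_empty_or_nonempty with h0 | h0
  · subst h0
    unfold sf
    simp
  obtain ⟨j, hj, hmax⟩ := Finset.exists_max_image F (fun i : Par d => i.1) h0
  unfold sf
  rw [← lintegral_finsetSum _ (fun Q _ => measurable_sup_term F r Q)]
  have hpt : ∀ U : Bond d → ℝ, ∑ Q : Fin d → Fin (Nr r), F.sup (fun i => term r Q (clu i U)) ≤
      {U | (2 : ℝ≥0∞) ^ r ≤ 1 + Metric.ediam (clu j U)}.indicator (fun _ => fac d r) U := by
    intro U
    by_cases hU : (2 : ℝ≥0∞) ^ r ≤ 1 + Metric.ediam (clu j U)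
    · rw [Set.indicator_of_mem (by exact hU)]
      exact sum_sup_scl_le F (fun i => clu i U) r (fun i _ => zero_mem_clu i U)
        (fun i _ j _ => clu_chain i j U)
    · rw [Set.indicator_of_notMem (by exact hU)]
      rw [nonpos_iff_eq_zero]
      refine Finset.sum_eq_zero fun Q _ => ?_
      rw [← nonpos_iff_eq_zero]
      refine Finset.sup_le fun i hi => ?_
      unfold term
      rw [if_neg]
      intro h
      apply hU
      refine h.1.trans ?_
      gcongr
      exact clu_mono (hmax i hi) U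
  calc ∫⁻ U, ∑ Q : Fin d → Fin (Nr r), F.sup (fun i => term r Q (clu i U)) ∂(labelLaw d)
      ≤ ∫⁻ U, {U | (2 : ℝ≥0∞) ^ r ≤ 1 + Metric.ediam (clu j U)}.indicator
          (fun _ => fac d r) U ∂(labelLaw d) := lintegral_mono hpt
    _ = fac d r * labelLaw d {U | (2 : ℝ≥0∞) ^ r ≤ 1 + Metric.ediam (clu j U)} := by
        rw [lintegral_indicator_const]
        exact measurableSet_le measurable_const (measurable_const.add (measurable_ediam_clu j))
    _ ≤ fac d r * (g / (2 ^ r) ^ s) := by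
        gcongr
        refine (markov_dm hs j r).trans ?_
        gcongr
        exact hF j hj

/-- the supremum over the finite subsets of a window of parameters -/
noncomputable def sw (W : Set (Par d)) (r : ℕ) (Q : Fin d → Fin (Nr r)) : ℝ≥0∞ :=
  ⨆ F : {F : Finset (Par d) // ∀ i ∈ F, i ∈ W}, sf F.1 r Q

lemma sw_le_trivial (W : Set (Par d)) (r : ℕ) (Q : Fin d → Fin (Nr r)) :
    sw W r Q ≤ 2 ^ ((r + 3) * d) :=
  iSup_le fun F => sf_le_trivial F.1 r Q

lemma sum_sw_le {s : ℝ} (hs : 0 ≤ s) (W : Set (Par d)) (g : ℝ≥0∞) (hW : ∀ i ∈ W, dm s i ≤ g)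
    (r : ℕ) : ∑ Q : Fin d → Fin (Nr r), sw W r Q ≤ fac d r * (g / (2 ^ r) ^ s) := by
  classical
  unfold sw
  rw [ENNReal.finsetSum_iSup]
  · exact iSup_le fun F => sum_sf_le hs F.1 g (fun i hi => hW i (F.2 i hi)) r
  · rintro ⟨F, hF⟩ ⟨F', hF'⟩
    refine ⟨⟨F ∪ F', fun i hi => ?_⟩, fun Q => ⟨sf_mono Finset.subset_union_left r Q,
      sf_mono Finset.subset_union_right r Q⟩⟩
    rcases Finset.mem_union.1 hi with h | h
    · exact hF i h
    · exact hF' i h

lemma lintegral_term_le (W : Set (Par d)) {i : Par d} (hi : i ∈ W) (r : ℕ)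
    (Q : Fin d → Fin (Nr r)) : ∫⁻ U, term r Q (clu i U) ∂(labelLaw d) ≤ sw W r Q := by
  have h := le_iSup (fun F : {F : Finset (Par d) // ∀ i ∈ F, i ∈ W} => sf F.1 r Q)
    ⟨{i}, fun j hj => by rw [Finset.mem_singleton.1 hj]; exact hi⟩
  refine le_trans (le_of_eq ?_) h
  unfold sf
  simp

lemma exists_scl {C : Set (Vtx d)} (hf : C.Finite) : ∃ r, scl r C := by
  have h1 : Metric.ediam C ≠ ⊤ := hf.isBounded.ediam_ne_top
  have h2 : 1 + Metric.ediam C ≠ ⊤ := by finiteness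
  have h3 : (1 : ℝ) ≤ (1 + Metric.ediam C).toReal := by
    rw [ENNReal.toReal_add (by simp) h1]
    simp
  obtain ⟨n, hn1, hn2⟩ := exists_nat_pow_near h3 (by norm_num : (1 : ℝ) < 2)
  refine ⟨n, ?_, ?_⟩
  · rw [← ENNReal.ofReal_toReal h2, show (2 : ℝ≥0∞) ^ n = ENNReal.ofReal (2 ^ n) by
      rw [ENNReal.ofReal_pow (by norm_num)]; norm_num]
    exact ENNReal.ofReal_le_ofReal hn1
  · rw [← ENNReal.ofReal_toReal h2, show (2 : ℝ≥0∞) ^ (n + 1) = ENNReal.ofReal (2 ^ (n + 1)) by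
      rw [ENNReal.ofReal_pow (by norm_num)]; norm_num]
    exact (ENNReal.ofReal_lt_ofReal_iff (by positivity)).2 hn2

lemma spec_le_tsum_term {C : Set (Vtx d)} (k : Fin d → ℝ)
    (Q : ∀ r, Fin d → Fin (Nr r)) (hQ : ∀ r, k ∈ cube (Nr r) (Q r)) :
    ENNReal.ofReal (spec C k) ≤ ∑' r, term r (Q r) C := by
  by_cases hf : C.Finite
  · obtain ⟨r, hr⟩ := exists_scl hf
    refine le_trans ?_ (ENNReal.le_tsum r)
    unfold term
    rw [if_pos hr]
    exact le_iSup₂ (f := fun k _ => ENNReal.ofReal (spec C k)) k (hQ r)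
  · rw [Transport.spec_infinite hf]
    simp

/-- **The two-point function is bounded by the sum of the scale terms.** -/
lemma tauHat_le_tsum (W : Set (Par d)) {i : Par d} (hi : i ∈ W) (k : Fin d → ℝ)
    (Q : ∀ r, Fin d → Fin (Nr r)) (hQ : ∀ r, k ∈ cube (Nr r) (Q r)) :
    ENNReal.ofReal (tauHat d i.1 i.le_one k) ≤ ∑' r, sw W r (Q r) := by
  rw [lintegral_label]
  calc ∫⁻ U, ENNReal.ofReal (spec (clu i U) k) ∂(labelLaw d)
      ≤ ∫⁻ U, ∑' r, term r (Q r) (clu i U) ∂(labelLaw d) :=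
        lintegral_mono fun U => spec_le_tsum_term k Q hQ
    _ = ∑' r, ∫⁻ U, term r (Q r) (clu i U) ∂(labelLaw d) := by
        rw [lintegral_tsum (fun r => (measurable_term r (Q r) i).aemeasurable)]
    _ ≤ ∑' r, sw W r (Q r) := ENNReal.tsum_le_tsum fun r => lintegral_term_le W hi r (Q r)

/-- every point of the torus is in a cube of the grid -/
lemma exists_cube {N : ℕ} (hN : 0 < N) {k : Fin d → ℝ} (hk : k ∈ torus d) :
    ∃ Q : Fin d → Fin N, k ∈ cube N Q := by
  have h1 : ∀ i, ∃ q : Fin N, -Real.pi + 2 * Real.pi / N * ((q : ℕ) : ℝ) ≤ k i ∧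
      k i ≤ -Real.pi + 2 * Real.pi / N * ((q : ℕ) : ℝ) + 2 * Real.pi / N := by
    intro i
    have hki : k i ∈ Set.Ioc (-Real.pi) Real.pi := hk i (Set.mem_univ i)
    have hNr : (0 : ℝ) < N := by exact_mod_cast hN
    set u : ℝ := (k i + Real.pi) * N / (2 * Real.pi) with hu
    have hu0 : 0 < u := by
      have : 0 < k i + Real.pi := by linarith [hki.1]
      positivity
    have huN : u ≤ N := by
      rw [hu, div_le_iff₀ (by positivity)]
      have : k i + Real.pi ≤ 2 * Real.pi := by linarith [hki.2]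
      nlinarith
    have hc1 : 0 < ⌈u⌉₊ := Nat.ceil_pos.2 hu0
    have hc2 : ⌈u⌉₊ ≤ N := Nat.ceil_le.2 huN
    refine ⟨⟨⌈u⌉₊ - 1, by omega⟩, ?_⟩
    have hc3 : ((⌈u⌉₊ - 1 : ℕ) : ℝ) = (⌈u⌉₊ : ℝ) - 1 := by
      rw [Nat.cast_sub hc1]; simp
    simp only [hc3]
    have hk' : k i = -Real.pi + 2 * Real.pi / N * u := by
      rw [hu]; field_simp; ring
    have hle : u ≤ ⌈u⌉₊ := Nat.le_ceil u
    have hlt : (⌈u⌉₊ : ℝ) < u + 1 := Nat.ceil_lt_add_one hu0.le
    have hpos : 0 < 2 * Real.pi / N := by positivity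
    constructor
    · rw [hk']
      have : (⌈u⌉₊ : ℝ) - 1 ≤ u := by linarith
      have := mul_le_mul_of_nonneg_left this hpos.le
      linarith
    · rw [hk']
      have := mul_le_mul_of_nonneg_left hle hpos.le
      have h3 : 2 * Real.pi / N * ((⌈u⌉₊ : ℝ) - 1) + 2 * Real.pi / N =
        2 * Real.pi / N * (⌈u⌉₊ : ℝ) := by ring
      linarith
  choose Q hQ using h1
  exact ⟨Q, fun i => hQ i⟩

end Pool.Agent.Lib.MP_54f242_pr.Exc
end

section

/-! The covering argument: Hausdorff dimension of the exceptional set. -/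

set_option autoImplicit false
set_option linter.deprecated false

open MeasureTheory Filter Topology
open scoped ENNReal NNReal

namespace Pool.Agent.Lib.MP_54f242_pr.Exc

open Pool.Agent.Lib.MP_54f242_pr

variable {d : ℕ}

/-- the window `2^j ≤ E_p[(1 + diam C)^s] < 2^(j+1)` -/
def win (s : ℝ) (j : ℕ) : Set (Par d) := {i | (2 : ℝ≥0∞) ^ j ≤ dm s i ∧ dm s i < 2 ^ (j + 1)}

/-- summable weights -/
noncomputable def cw (r : ℕ) : ℝ≥0∞ := ENNReal.ofReal (1 / ((r : ℝ) + 1) ^ 2)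

lemma cw_pos (r : ℕ) : 0 < cw r := by
  unfold cw
  rw [ENNReal.ofReal_pos]
  positivity

lemma cw_ne_top (r : ℕ) : cw r ≠ ⊤ := ENNReal.ofReal_ne_top

lemma tsum_cw_ne_top : ∑' r, cw r ≠ ⊤ := by
  unfold cw
  have h : Summable (fun r : ℕ => 1 / ((r : ℝ) + 1) ^ 2) := by
    have h1 := (summable_nat_add_iff (f := fun n : ℕ => 1 / (n : ℝ) ^ 2) 1).2
      (Real.summable_one_div_nat_pow.2 (by norm_num))
    simpa using h1
  exact h.tsum_ofReal_ne_top

/-- the number of relevant windows at scale `r` -/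
def jn (d r : ℕ) : ℕ := (r + 3) * d + 2 * (r + 1)

open Classical in
/-- the bad cubes of scale `r` -/
noncomputable def bad (s : ℝ) (d r : ℕ) : Finset (Fin d → Fin (Nr r)) :=
  Finset.univ.filter fun Q => ∃ j < jn d r, 2 ^ j * cw r < sw (win s j) r Q

lemma large_j {j r : ℕ} (h : jn d r ≤ j) (W : Set (Par d)) (Q : Fin d → Fin (Nr r)) :
    sw W r Q ≤ 2 ^ j * cw r := by
  refine (sw_le_trivial W r Q).trans ?_
  have h1 : (2 : ℝ) ^ ((r + 3) * d) ≤ 2 ^ j * (1 / ((r : ℝ) + 1) ^ 2) := by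
    rw [mul_one_div, le_div_iff₀ (by positivity)]
    have h2 : ((r : ℝ) + 1) ≤ 2 ^ (r + 1) := by
      have : r + 1 < 2 ^ (r + 1) := Nat.lt_two_pow_self
      exact_mod_cast this.le
    calc (2 : ℝ) ^ ((r + 3) * d) * ((r : ℝ) + 1) ^ 2 ≤ 2 ^ ((r + 3) * d) * (2 ^ (r + 1)) ^ 2 := by
          gcongr
      _ = 2 ^ jn d r := by
          unfold jn
          rw [← pow_mul, ← pow_add]
          congr 1
          ring
      _ ≤ 2 ^ j := pow_le_pow_right₀ (by norm_num) h
  unfold cw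
  rw [show (2 : ℝ≥0∞) ^ ((r + 3) * d) = ENNReal.ofReal (2 ^ ((r + 3) * d)) by
      rw [ENNReal.ofReal_pow (by norm_num)]; norm_num,
    show (2 : ℝ≥0∞) ^ j = ENNReal.ofReal (2 ^ j) by
      rw [ENNReal.ofReal_pow (by norm_num)]; norm_num,
    ← ENNReal.ofReal_mul (by positivity)]
  exact ENNReal.ofReal_le_ofReal h1

lemma not_bad {s : ℝ} {r : ℕ} {Q : Fin d → Fin (Nr r)} (h : Q ∉ bad s d r) (j : ℕ) :
    sw (win s j) r Q ≤ 2 ^ j * cw r := by
  classical
  rcases lt_or_ge j (jn d r) with hj | hj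
  · by_contra hcon
    push Not at hcon
    apply h
    unfold bad
    rw [Finset.mem_filter]
    exact ⟨Finset.mem_univ _, j, hj, hcon⟩
  · exact large_j hj _ Q

lemma exists_win {s : ℝ} (hs : 0 ≤ s) {i : Par d} (hi : dm s i ≠ ⊤) : ∃ j, i ∈ win s j := by
  have h1 : (1 : ℝ) ≤ (dm s i).toReal := by
    have := ENNReal.toReal_mono hi (one_le_dm hs i)
    simpa using this
  obtain ⟨n, hn1, hn2⟩ := exists_nat_pow_near h1 (by norm_num : (1 : ℝ) < 2)
  refine ⟨n, ?_, ?_⟩
  · rw [← ENNReal.ofReal_toReal hi, show (2 : ℝ≥0∞) ^ n = ENNReal.ofReal (2 ^ n) by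
      rw [ENNReal.ofReal_pow (by norm_num)]; norm_num]
    exact ENNReal.ofReal_le_ofReal hn1
  · rw [← ENNReal.ofReal_toReal hi, show (2 : ℝ≥0∞) ^ (n + 1) = ENNReal.ofReal (2 ^ (n + 1)) by
      rw [ENNReal.ofReal_pow (by norm_num)]; norm_num]
    exact (ENNReal.ofReal_lt_ofReal_iff (by positivity)).2 hn2

/-- the constant for points that are in no bad cube of scale `≥ n` -/
noncomputable def kn (d n : ℕ) : ℝ≥0∞ :=
  (∑ r ∈ Finset.range n, (2 : ℝ≥0∞) ^ ((r + 3) * d)) + ∑' r, cw r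

lemma kn_ne_top (d n : ℕ) : kn d n ≠ ⊤ := by
  unfold kn
  refine ENNReal.add_ne_top.2 ⟨?_, tsum_cw_ne_top⟩
  exact ENNReal.sum_ne_top.2 fun r _ => by finiteness

lemma good_bound {s : ℝ} (hs : 0 ≤ s) (n : ℕ) (k : Fin d → ℝ)
    (Q : ∀ r, Fin d → Fin (Nr r)) (hQ : ∀ r, k ∈ cube (Nr r) (Q r))
    (hgood : ∀ r, n ≤ r → Q r ∉ bad s d r) (i : Par d) :
    ENNReal.ofReal (tauHat d i.1 i.le_one k) ≤ kn d n * dm s i := by
  by_cases hi : dm s i = ⊤
  · rw [hi, ENNReal.mul_top]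
    · exact le_top
    · unfold kn
      intro h
      have h2 := (add_eq_zero.1 h).2
      rw [ENNReal.tsum_eq_zero] at h2
      exact (cw_pos 0).ne' (h2 0)
  obtain ⟨j, hj⟩ := exists_win hs hi
  refine (tauHat_le_tsum (win s j) hj k Q hQ).trans ?_
  have h1 : ∀ r, sw (win s j) r (Q r) ≤
      (if r ∈ Finset.range n then (2 : ℝ≥0∞) ^ ((r + 3) * d) else 0) + 2 ^ j * cw r := by
    intro r
    split_ifs with h
    · exact (sw_le_trivial _ r _).trans le_self_add
    · rw [zero_add]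
      exact not_bad (hgood r (by simpa using h)) j
  calc ∑' r, sw (win s j) r (Q r)
      ≤ ∑' r, ((if r ∈ Finset.range n then (2 : ℝ≥0∞) ^ ((r + 3) * d) else 0) + 2 ^ j * cw r) :=
        ENNReal.tsum_le_tsum h1
    _ = (∑ r ∈ Finset.range n, (2 : ℝ≥0∞) ^ ((r + 3) * d)) + 2 ^ j * ∑' r, cw r := by
        rw [ENNReal.tsum_add, ENNReal.tsum_mul_left]
        congr 1
        rw [tsum_eq_sum (s := Finset.range n)]
        · exact Finset.sum_congr rfl fun r hr => by rw [if_pos hr]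
        · intro r hr
          rw [if_neg hr]
    _ ≤ (∑ r ∈ Finset.range n, (2 : ℝ≥0∞) ^ ((r + 3) * d)) * dm s i +
        dm s i * ∑' r, cw r := by
        gcongr
        · exact le_mul_of_one_le_right' (one_le_dm hs i)
        · exact hj.1
    _ = kn d n * dm s i := by
        unfold kn
        ring

/-- the exceptional set -/
def exc (d : ℕ) (s : ℝ) : Set (Fin d → ℝ) :=
  {k | k ∈ torus d ∧ ∀ C : ℝ, ∃ i : Par d,
    ENNReal.ofReal C * dm s i < ENNReal.ofReal (tauHat d i.1 i.le_one k)}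

lemma exc_subset {s : ℝ} (hs : 0 ≤ s) (n : ℕ) :
    exc d s ⊆ ⋃ x : (Σ r : ℕ, (Fin d → Fin (Nr (r + n)))),
      {k | x.2 ∈ bad s d (x.1 + n) ∧ k ∈ cube (Nr (x.1 + n)) x.2} := by
  rintro k ⟨hk, hC⟩
  choose Q hQ using fun r => exists_cube (Nr_pos r) hk
  by_contra hcon
  have hgood : ∀ r, n ≤ r → Q r ∉ bad s d r := by
    intro r hr hbad
    apply hcon
    obtain ⟨r', rfl⟩ := Nat.exists_eq_add_of_le' hr
    rw [Set.mem_iUnion]
    exact ⟨⟨r', Q (r' + n)⟩, hbad, hQ _⟩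
  obtain ⟨i, hi⟩ := hC (kn d n).toReal
  rw [ENNReal.ofReal_toReal (kn_ne_top d n)] at hi
  exact absurd (good_bound hs n k Q hQ hgood i) (not_le.2 hi)

/-- real upper bound for the number of bad cubes -/
noncomputable def bc (s : ℝ) (d r : ℕ) : ℝ :=
  jn d r * (4 * (nc d r) ^ 3 * (Real.exp (Real.pi / 2) ^ d * Real.exp (Real.pi / 2) ^ d *
    (Nr r : ℝ) ^ d) * ((r : ℝ) + 1) ^ 2 * ((2 : ℝ) ^ r) ^ (-s))

lemma bc_nonneg (s : ℝ) (d r : ℕ) : 0 ≤ bc s d r := by
  unfold bc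
  positivity

lemma card_bad_le {s : ℝ} (hs : 0 ≤ s) (r : ℕ) :
    ((bad s d r).card : ℝ≥0∞) ≤ ENNReal.ofReal (bc s d r) := by
  classical
  have h1 : ∀ j : ℕ, (((Finset.univ : Finset (Fin d → Fin (Nr r))).filter
      fun Q => 2 ^ j * cw r < sw (win s j) r Q).card : ℝ≥0∞) ≤
      ENNReal.ofReal (4 * (nc d r) ^ 3 * (Real.exp (Real.pi / 2) ^ d *
        Real.exp (Real.pi / 2) ^ d * (Nr r : ℝ) ^ d) * ((r : ℝ) + 1) ^ 2 *
        ((2 : ℝ) ^ r) ^ (-s)) := by
    intro j
    set S := (Finset.univ : Finset (Fin d → Fin (Nr r))).filter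
      fun Q => 2 ^ j * cw r < sw (win s j) r Q with hS
    have h2 : (S.card : ℝ≥0∞) * (2 ^ j * cw r) ≤ fac d r * (2 ^ (j + 1) / (2 ^ r) ^ s) := by
      calc (S.card : ℝ≥0∞) * (2 ^ j * cw r) = ∑ Q ∈ S, 2 ^ j * cw r := by
            rw [Finset.sum_const, nsmul_eq_mul]
        _ ≤ ∑ Q ∈ S, sw (win s j) r Q :=
            Finset.sum_le_sum fun Q hQ => (Finset.mem_filter.1 hQ).2.le
        _ ≤ ∑ Q : Fin d → Fin (Nr r), sw (win s j) r Q :=
            Finset.sum_le_univ_sum_of_nonneg fun _ => zero_le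
        _ ≤ _ := sum_sw_le hs (win s j) _ (fun i hi => hi.2.le) r
    have h3 : ENNReal.ofReal (4 * (nc d r) ^ 3 * (Real.exp (Real.pi / 2) ^ d *
        Real.exp (Real.pi / 2) ^ d * (Nr r : ℝ) ^ d) * ((r : ℝ) + 1) ^ 2 *
        ((2 : ℝ) ^ r) ^ (-s)) * (2 ^ j * cw r) = fac d r * (2 ^ (j + 1) / (2 ^ r) ^ s) := by
      unfold fac cst1 cw
      have e1 : (2 : ℝ≥0∞) ^ j = ENNReal.ofReal (2 ^ j) := by
        rw [ENNReal.ofReal_pow (by norm_num)]; norm_num
      have e2 : (2 : ℝ≥0∞) ^ (j + 1) = ENNReal.ofReal (2 ^ (j + 1)) := by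
        rw [ENNReal.ofReal_pow (by norm_num)]; norm_num
      have e3 : ((2 : ℝ≥0∞) ^ r) ^ s = ENNReal.ofReal (((2 : ℝ) ^ r) ^ s) := by
        rw [← ENNReal.ofReal_rpow_of_nonneg (by positivity) hs,
          ENNReal.ofReal_pow (by norm_num)]
        norm_num
      have e4 : (2 : ℝ≥0∞) * (nc d r : ℝ≥0∞) ^ 3 = ENNReal.ofReal (2 * (nc d r) ^ 3) := by
        rw [ENNReal.ofReal_mul (by norm_num), ENNReal.ofReal_pow (by positivity),
          ENNReal.ofReal_natCast]
        norm_num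
      rw [e1, e2, e3, e4, ← ENNReal.ofReal_div_of_pos (by positivity),
        ← ENNReal.ofReal_mul (by positivity), ← ENNReal.ofReal_mul (by positivity),
        ← ENNReal.ofReal_mul (by positivity), ← ENNReal.ofReal_mul (by positivity)]
      congr 1
      rw [Real.rpow_neg (by positivity)]
      have : (0 : ℝ) < ((2 : ℝ) ^ r) ^ s := by positivity
      field_simp
      ring
    rw [← h3] at h2
    have h4 : (2 : ℝ≥0∞) ^ j * cw r ≠ 0 := mul_ne_zero (by positivity) (cw_pos r).ne'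
    have h5 : (2 : ℝ≥0∞) ^ j * cw r ≠ ⊤ := ENNReal.mul_ne_top (by finiteness) (cw_ne_top r)
    exact (ENNReal.mul_le_mul_iff_left h4 h5).1 h2
  have h2 : bad s d r ⊆ (Finset.range (jn d r)).biUnion fun j =>
      (Finset.univ : Finset (Fin d → Fin (Nr r))).filter
        fun Q => 2 ^ j * cw r < sw (win s j) r Q := by
    intro Q hQ
    unfold bad at hQ
    obtain ⟨-, j, hj, hlt⟩ := Finset.mem_filter.1 hQ
    rw [Finset.mem_biUnion]
    exact ⟨j, Finset.mem_range.2 hj, Finset.mem_filter.2 ⟨Finset.mem_univ _, hlt⟩⟩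
  calc ((bad s d r).card : ℝ≥0∞)
      ≤ (((Finset.range (jn d r)).biUnion fun j =>
        (Finset.univ : Finset (Fin d → Fin (Nr r))).filter
        fun Q => 2 ^ j * cw r < sw (win s j) r Q).card : ℝ≥0∞) := by
        exact_mod_cast Finset.card_le_card h2
    _ ≤ ∑ j ∈ Finset.range (jn d r), (((Finset.univ : Finset (Fin d → Fin (Nr r))).filter
        fun Q => 2 ^ j * cw r < sw (win s j) r Q).card : ℝ≥0∞) := by
        exact_mod_cast Finset.card_biUnion_le
    _ ≤ ∑ j ∈ Finset.range (jn d r), ENNReal.ofReal (4 * (nc d r) ^ 3 *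
        (Real.exp (Real.pi / 2) ^ d * Real.exp (Real.pi / 2) ^ d * (Nr r : ℝ) ^ d) *
        ((r : ℝ) + 1) ^ 2 * ((2 : ℝ) ^ r) ^ (-s)) := Finset.sum_le_sum fun j _ => h1 j
    _ = ENNReal.ofReal (bc s d r) := by
        rw [Finset.sum_const, Finset.card_range, nsmul_eq_mul, ← ENNReal.ofReal_natCast,
          ← ENNReal.ofReal_mul (by positivity)]
        rfl

end Pool.Agent.Lib.MP_54f242_pr.Exc
end

section

/-! The Hausdorff dimension of the exceptional set. -/

set_option autoImplicit false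
set_option linter.deprecated false

open MeasureTheory Filter Topology
open scoped ENNReal NNReal

namespace Pool.Agent.Lib.MP_54f242_pr.Exc

open Pool.Agent.Lib.MP_54f242_pr

variable {d : ℕ}

lemma summable_poly_geom (ρ : ℝ) (h0 : 0 < ρ) (h1 : ρ < 1) :
    Summable (fun r : ℕ => ((r : ℝ) + 1) ^ 6 * ρ ^ r) := by
  have h := (summable_nat_add_iff (f := fun n : ℕ => (n : ℝ) ^ 6 * ρ ^ n) 1).2
    (summable_pow_mul_geometric_of_norm_lt_one 6 (by rwa [Real.norm_eq_abs, abs_of_pos h0]))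
  refine (h.mul_left ρ⁻¹).congr fun r => ?_
  push_cast
  rw [pow_succ ρ r]
  field_simp

lemma summable_bc (s t : ℝ) (h : (d : ℝ) - s < t) :
    Summable (fun r : ℕ => bc s d r * (2 * Real.pi / Nr r) ^ t) := by
  set ρ : ℝ := (2 : ℝ) ^ ((d : ℝ) - s - t) with hρ
  have hρ0 : 0 < ρ := by positivity
  have hρ1 : ρ < 1 := Real.rpow_lt_one_of_one_lt_of_neg (by norm_num) (by linarith)
  set K : ℝ := ((3 * d + 2 : ℕ) : ℝ) * (4 * ((3 * d + 1 : ℕ) : ℝ) ^ 3 *
    (Real.exp (Real.pi / 2) ^ d * Real.exp (Real.pi / 2) ^ d * 8 ^ d)) * (2 * Real.pi / 8) ^ t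
    with hK
  refine Summable.of_nonneg_of_le (fun r => mul_nonneg (bc_nonneg s d r) (by positivity))
    (fun r => ?_) ((summable_poly_geom ρ hρ0 hρ1).mul_left K)
  have hj : (jn d r : ℝ) ≤ ((3 * d + 2 : ℕ) : ℝ) * ((r : ℝ) + 1) := by
    have : jn d r ≤ (3 * d + 2) * (r + 1) := by unfold jn; nlinarith
    exact_mod_cast this
  have hn : (nc d r : ℝ) ≤ ((3 * d + 1 : ℕ) : ℝ) * ((r : ℝ) + 1) := by
    have : nc d r ≤ (3 * d + 1) * (r + 1) := by unfold nc; nlinarith
    exact_mod_cast this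
  have hN : (Nr r : ℝ) = 8 * 2 ^ r := by
    unfold Nr
    push_cast
    ring
  have h2r : (0 : ℝ) < 2 ^ r := by positivity
  have e1 : (2 * Real.pi / (Nr r : ℝ)) ^ t = (2 * Real.pi / 8) ^ t * ((2 : ℝ) ^ r) ^ (-t) := by
    rw [hN, Real.rpow_neg h2r.le, ← Real.inv_rpow h2r.le, ← Real.mul_rpow (by positivity)
      (by positivity)]
    congr 1
    field_simp
  have e2 : ((2 : ℝ) ^ r) ^ d * ((2 : ℝ) ^ r) ^ (-s) * ((2 : ℝ) ^ r) ^ (-t) = ρ ^ r := by
    rw [← Real.rpow_natCast ((2 : ℝ) ^ r) d, ← Real.rpow_add h2r, ← Real.rpow_add h2r, hρ,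
      ← Real.rpow_natCast ((2 : ℝ) ^ ((d : ℝ) - s - t)) r, ← Real.rpow_mul (by norm_num),
      ← Real.rpow_natCast (2 : ℝ) r, ← Real.rpow_mul (by norm_num)]
    congr 1
    ring
  calc bc s d r * (2 * Real.pi / Nr r) ^ t
      = jn d r * (4 * (nc d r) ^ 3 * (Real.exp (Real.pi / 2) ^ d * Real.exp (Real.pi / 2) ^ d *
        8 ^ d) * ((r : ℝ) + 1) ^ 2) * (2 * Real.pi / 8) ^ t *
        (((2 : ℝ) ^ r) ^ d * ((2 : ℝ) ^ r) ^ (-s) * ((2 : ℝ) ^ r) ^ (-t)) := by
        unfold bc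
        rw [e1, hN, mul_pow]
        ring
    _ = jn d r * (4 * (nc d r) ^ 3 * (Real.exp (Real.pi / 2) ^ d * Real.exp (Real.pi / 2) ^ d *
        8 ^ d) * ((r : ℝ) + 1) ^ 2) * (2 * Real.pi / 8) ^ t * ρ ^ r := by rw [e2]
    _ ≤ (((3 * d + 2 : ℕ) : ℝ) * ((r : ℝ) + 1)) * (4 * (((3 * d + 1 : ℕ) : ℝ) * ((r : ℝ) + 1)) ^ 3 *
        (Real.exp (Real.pi / 2) ^ d * Real.exp (Real.pi / 2) ^ d *
        8 ^ d) * ((r : ℝ) + 1) ^ 2) * (2 * Real.pi / 8) ^ t * ρ ^ r := by
        gcongr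
    _ = K * (((r : ℝ) + 1) ^ 6 * ρ ^ r) := by
        rw [hK]
        ring

lemma ediam_cube_le (N : ℕ) (Q : Fin d → Fin N) :
    Metric.ediam (cube N Q) ≤ ENNReal.ofReal (2 * Real.pi / N) := by
  refine Metric.ediam_le fun x hx y hy => ?_
  rw [edist_pi_le_iff]
  intro i
  rw [edist_dist, Real.dist_eq]
  apply ENNReal.ofReal_le_ofReal
  have h1 := hx i
  have h2 := hy i
  rw [abs_le]
  constructor <;> linarith [h1.1, h1.2, h2.1, h2.2]

/-- the tail sums of the covering -/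
lemma hausdorff_exc {s : ℝ} (hs : 0 ≤ s) {t : ℝ} (ht0 : 0 < t) (ht : (d : ℝ) - s < t) :
    μH[t] (exc d s) = 0 := by
  classical
  set f : ℕ → ℝ≥0∞ := fun r => ENNReal.ofReal (bc s d r * (2 * Real.pi / Nr r) ^ t) with hf
  have hfs : ∑' r, f r ≠ ⊤ := (summable_bc s t ht).tsum_ofReal_ne_top
  have htail : Tendsto (fun n => ∑' r, f (r + n)) atTop (𝓝 0) := ENNReal.tendsto_sum_nat_add f hfs
  set T : ∀ n : ℕ, (Σ r : ℕ, (Fin d → Fin (Nr (r + n)))) → Set (Fin d → ℝ) := fun n x =>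
    {k | x.2 ∈ bad s d (x.1 + n) ∧ k ∈ cube (Nr (x.1 + n)) x.2} with hT
  have hTsub : ∀ n x, T n x ⊆ cube (Nr (x.1 + n)) x.2 := fun n x k hk => hk.2
  have hr : Tendsto (fun n : ℕ => ENNReal.ofReal (2 * Real.pi / Nr n)) atTop (𝓝 0) := by
    rw [← ENNReal.ofReal_zero]
    refine (ENNReal.continuous_ofReal.tendsto _).comp ?_
    have h1 : Tendsto (fun n : ℕ => (Nr n : ℝ)) atTop atTop := by
      have h2 : (fun n : ℕ => (Nr n : ℝ)) = (fun m : ℕ => (2 : ℝ) ^ m) ∘ (fun n => n + 3) := by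
        funext n
        simp [Nr]
      rw [h2]
      exact (tendsto_pow_atTop_atTop_of_one_lt (by norm_num)).comp (tendsto_add_atTop_nat 3)
    exact tendsto_const_nhds.div_atTop h1
  have hle := Measure.hausdorffMeasure_le_liminf_tsum (ι := fun n : ℕ =>
      (Σ r : ℕ, (Fin d → Fin (Nr (r + n))))) t (exc d s) (l := atTop)
    (fun n : ℕ => ENNReal.ofReal (2 * Real.pi / Nr n)) hr T
    (Eventually.of_forall fun n x => by
      refine (Metric.ediam_mono (hTsub n x)).trans ((ediam_cube_le _ _).trans ?_)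
      apply ENNReal.ofReal_le_ofReal
      have h1 : (Nr n : ℝ) ≤ Nr (x.1 + n) := by
        unfold Nr
        exact_mod_cast Nat.pow_le_pow_right (by norm_num) (by omega)
      have h2 : (0 : ℝ) < Nr n := by exact_mod_cast Nr_pos n
      gcongr)
    (Eventually.of_forall fun n => exc_subset hs n)
  have hsum : ∀ n : ℕ, ∑' x : (Σ r : ℕ, (Fin d → Fin (Nr (r + n)))),
      Metric.ediam (T n x) ^ t ≤ ∑' r, f (r + n) := by
    intro n
    rw [ENNReal.tsum_sigma']
    refine ENNReal.tsum_le_tsum fun r => ?_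
    rw [tsum_fintype]
    have h1 : ∀ Q : Fin d → Fin (Nr (r + n)), Metric.ediam (T n ⟨r, Q⟩) ^ t ≤
        if Q ∈ bad s d (r + n) then (ENNReal.ofReal (2 * Real.pi / Nr (r + n))) ^ t else 0 := by
      intro Q
      split_ifs with hQ
      · refine ENNReal.rpow_le_rpow ?_ ht0.le
        exact (Metric.ediam_mono (hTsub n ⟨r, Q⟩)).trans (ediam_cube_le _ _)
      · have h2 : T n ⟨r, Q⟩ = ∅ := by
          ext k
          simp only [hT, Set.mem_empty_iff_false, iff_false]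
          rintro ⟨h3, -⟩
          exact hQ h3
        rw [h2, Metric.ediam_empty, ENNReal.zero_rpow_of_pos ht0]
    calc ∑ Q : Fin d → Fin (Nr (r + n)), Metric.ediam (T n ⟨r, Q⟩) ^ t
        ≤ ∑ Q : Fin d → Fin (Nr (r + n)), if Q ∈ bad s d (r + n) then
          (ENNReal.ofReal (2 * Real.pi / Nr (r + n))) ^ t else 0 :=
          Finset.sum_le_sum fun Q _ => h1 Q
      _ = ((bad s d (r + n)).card : ℝ≥0∞) * (ENNReal.ofReal (2 * Real.pi / Nr (r + n))) ^ t := by
          rw [← Finset.sum_filter, Finset.sum_const, nsmul_eq_mul]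
          congr 2
          rw [Finset.filter_mem_eq_inter, Finset.univ_inter]
      _ ≤ ENNReal.ofReal (bc s d (r + n)) * (ENNReal.ofReal (2 * Real.pi / Nr (r + n))) ^ t := by
          gcongr
          exact card_bad_le hs (r + n)
      _ = f (r + n) := by
          rw [hf, ENNReal.ofReal_rpow_of_nonneg (by positivity) ht0.le,
            ← ENNReal.ofReal_mul (bc_nonneg s d (r + n))]
  have hlim : liminf (fun n => ∑' x : (Σ r : ℕ, (Fin d → Fin (Nr (r + n)))),
      Metric.ediam (T n x) ^ t) atTop ≤ 0 := by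
    calc liminf (fun n => ∑' x : (Σ r : ℕ, (Fin d → Fin (Nr (r + n)))),
        Metric.ediam (T n x) ^ t) atTop ≤ liminf (fun n => ∑' r, f (r + n)) atTop :=
          liminf_le_liminf (Eventually.of_forall hsum)
      _ = 0 := htail.liminf_eq
  exact le_antisymm (hle.trans hlim) zero_le

/-- **Hausdorff dimension of the exceptional set.** -/
theorem dimH_exc {s : ℝ} (hs : 0 ≤ s) : dimH (exc d s) ≤ ENNReal.ofReal ((d : ℝ) - s) := by
  refine dimH_le fun t ht => ?_
  by_contra hcon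
  push Not at hcon
  have h1 : (0 : ℝ) < t := by
    have : (0 : ℝ≥0∞) < t := lt_of_le_of_lt zero_le hcon
    exact_mod_cast this
  have h2 : (d : ℝ) - s < t := by
    have h3 : ENNReal.ofReal ((d : ℝ) - s) < ENNReal.ofReal (t : ℝ) := by
      rwa [ENNReal.ofReal_coe_nnreal]
    exact (ENNReal.ofReal_lt_ofReal_iff h1).1 h3
  have h3 := hausdorff_exc (d := d) hs h1 h2
  rw [h3] at ht
  exact ENNReal.zero_ne_top ht

end Pool.Agent.Lib.MP_54f242_pr.Exc
end

section

/-! Comparison of the diameter with the size of the cluster; the bound by `χ(p)^s`. -/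

set_option autoImplicit false
set_option linter.deprecated false

open MeasureTheory Filter Topology
open scoped ENNReal NNReal

namespace Pool.Agent.Lib.MP_54f242_pr.Exc

open Pool.Agent.Lib.MP_54f242_pr

variable {d : ℕ}

lemma edist_single (a : Vtx d) (i : Fin d) : edist a (a + Pi.single i 1) ≤ 1 := by
  rw [edist_pi_le_iff]
  intro j
  rw [edist_dist, Int.dist_eq]
  rw [← ENNReal.ofReal_one]
  apply ENNReal.ofReal_le_ofReal
  by_cases h : j = i
  · subst h
    simp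
  · simp [Pi.single_eq_of_ne h]

lemma edist_adj {ω : Bond d → Bool} {a b : Vtx d} (h : (openGraph ω).Adj a b) :
    edist a b ≤ 1 := by
  unfold openGraph at h
  rw [SimpleGraph.fromRel_adj] at h
  rcases h.2 with ⟨i, h1, -⟩ | ⟨i, h1, -⟩
  · rw [h1]; exact edist_single a i
  · rw [h1, edist_comm]; exact edist_single b i

lemma edist_walk {ω : Bond d → Bool} {a b : Vtx d} (p : (openGraph ω).Walk a b) :
    edist a b ≤ p.length := by
  induction p with
  | nil => simp
  | cons h p ih =>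
    rename_i u v w
    rw [SimpleGraph.Walk.length_cons]
    push_cast
    calc edist u w ≤ edist u v + edist v w := edist_triangle _ _ _
      _ ≤ 1 + p.length := by gcongr; exact edist_adj h
      _ = _ := add_comm _ _

lemma one_add_ediam_le {ω : Bond d → Bool} (hf : (cluster ω).Finite) :
    1 + Metric.ediam (cluster ω) ≤ hf.toFinset.card := by
  classical
  have h0 : (0 : Vtx d) ∈ cluster ω := SimpleGraph.Reachable.refl _
  have hpos : 1 ≤ hf.toFinset.card := by
    rw [Nat.one_le_iff_ne_zero, Finset.card_ne_zero]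
    exact ⟨0, hf.mem_toFinset.2 h0⟩
  have key : Metric.ediam (cluster ω) ≤ ((hf.toFinset.card - 1 : ℕ) : ℝ≥0∞) := by
    refine Metric.ediam_le fun x hx y hy => ?_
    have hxy : (openGraph ω).Reachable x y := by
      have h1 : (openGraph ω).Reachable 0 x := hx
      have h2 : (openGraph ω).Reachable 0 y := hy
      exact h1.symm.trans h2
    obtain ⟨p, hp⟩ := hxy.exists_isPath
    refine (edist_walk p).trans ?_
    have hsub : p.support.toFinset ⊆ hf.toFinset := by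
      intro z hz
      rw [List.mem_toFinset] at hz
      rw [hf.mem_toFinset]
      have h3 : (openGraph ω).Reachable x z := (p.takeUntil z hz).reachable
      have h1 : (openGraph ω).Reachable 0 x := hx
      exact h1.trans h3
    have hcard : p.support.toFinset.card = p.length + 1 := by
      rw [List.toFinset_card_of_nodup hp.support_nodup, SimpleGraph.Walk.length_support]
    have h4 := Finset.card_le_card hsub
    rw [hcard] at h4
    exact_mod_cast (by omega : p.length ≤ hf.toFinset.card - 1)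
  calc 1 + Metric.ediam (cluster ω) ≤ 1 + ((hf.toFinset.card - 1 : ℕ) : ℝ≥0∞) := by gcongr
    _ = hf.toFinset.card := by
        have : 1 + (hf.toFinset.card - 1) = hf.toFinset.card := by omega
        exact_mod_cast this

open Classical in
lemma dmom_le {s : ℝ} (hs0 : 0 ≤ s) (hs1 : s ≤ 1) (p : ℝ≥0) (hp : p ≤ 1)
    (hs : Summable (tau d p hp)) :
    dmom d s p hp ≤ ENNReal.ofReal (chi d p hp ^ s) := by
  have hprob : IsProbabilityMeasure (law d p hp) := Transport.isProb d p hp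
  set f : (Bond d → Bool) → ℝ≥0∞ := fun ω =>
    ∑' x : Vtx d, (if x ∈ cluster ω then 1 else 0 : ℝ≥0∞) with hf
  have hmeas : Measurable f := Measurable.ennreal_tsum fun x => Transport.measurable_indicator x
  have h1 : dmom d s p hp ≤ ∫⁻ ω, f ω ^ s ∂(law d p hp) := by
    unfold dmom
    refine lintegral_mono_ae ?_
    filter_upwards [ae_finite p hp hs] with ω hω
    refine ENNReal.rpow_le_rpow ?_ hs0
    rw [hf]
    simp only
    rw [Transport.size_finset hω]
    exact one_add_ediam_le hω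
  have hchi : 1 ≤ chi d p hp := one_le_sus ⟨p, hp, hs⟩
  rcases hs0.eq_or_lt with h0 | h0
  · rw [← h0] at h1 ⊢
    simpa using h1
  have h2 := eLpNorm'_le_eLpNorm'_of_exponent_le h0 hs1 (law d p hp)
    hmeas.aestronglyMeasurable
  unfold eLpNorm' at h2
  simp only [enorm_eq_self, ENNReal.rpow_one, div_one] at h2
  rw [Transport.lintegral_size p hp hs] at h2
  have h3 := ENNReal.rpow_le_rpow h2 hs0
  rw [← ENNReal.rpow_mul, one_div, inv_mul_cancel₀ h0.ne', ENNReal.rpow_one,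
    ENNReal.ofReal_rpow_of_nonneg (by linarith) hs0] at h3
  exact h1.trans h3

/-- The exceptional set for the bound by `χ(p)^s`. -/
lemma excChi_subset {s : ℝ} (hs0 : 0 ≤ s) (hs1 : s ≤ 1) :
    {k : Fin d → ℝ | k ∈ torus d ∧ ∀ C : ℝ, ∃ (p : ℝ≥0) (hp : p ≤ 1), Summable (tau d p hp) ∧
      C * chi d p hp ^ s < tauHat d p hp k} ⊆ exc d s := by
  rintro k ⟨hk, h⟩
  refine ⟨hk, fun C => ?_⟩
  obtain ⟨p, hp, hs, hlt⟩ := h (max C 0)
  refine ⟨⟨p, hp, hs⟩, ?_⟩
  have hchi : 1 ≤ chi d p hp := one_le_sus ⟨p, hp, hs⟩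
  calc ENNReal.ofReal C * dm s (⟨p, hp, hs⟩ : Par d)
      ≤ ENNReal.ofReal (max C 0) * ENNReal.ofReal (chi d p hp ^ s) := by
        gcongr
        · exact le_max_left _ _
        · exact dmom_le hs0 hs1 p hp hs
    _ = ENNReal.ofReal (max C 0 * chi d p hp ^ s) := by
        rw [← ENNReal.ofReal_mul (le_max_right _ _)]
    _ < ENNReal.ofReal (tauHat d p hp k) := by
        refine (ENNReal.ofReal_lt_ofReal_iff ?_).2 hlt
        exact lt_of_le_of_lt (mul_nonneg (le_max_right _ _) (by positivity)) hlt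

end Pool.Agent.Lib.MP_54f242_pr.Exc
end
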